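import Pool.Agent.Lib.MP_1d7d98_al.Concrete

/-!
An almost malnormal subgroup `H` with nonempty Morse boundary, whose inclusion induces a
homeomorphism from the Morse boundary of `H` onto the limit set of `H`, need not be
hyperbolically embedded.
-/

namespace Pool.Agent.Results.MP_1d7d98_al.MalnormalNotHypEmbedded

open Pool.Agent.Lib.MP_1d7d98_al

/-- There are a group `G` with a finite generating set `S` and a subgroup `H` with a finite
generating set `T` such that `H` is almost malnormal, the Morse boundary of `H` is nonempty, the
inclusion induces a homeomorphism from the Morse boundary of `H` onto the limit set of `H` in the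
Morse boundary of `G`, and `H` is not hyperbolically embedded in `G`. -/
theorem result : ∃ (G : Type) (_ : Group G) (S : Set G) (H : Subgroup G) (T : Set H),
    S.Finite ∧ Subgroup.closure S = ⊤ ∧ T.Finite ∧ Subgroup.closure T = ⊤ ∧
    AlmostMalnormal H ∧ Nonempty (MorseBdry (wordDist T) (1 : H)) ∧ InducesHomeo S H T ∧
    ¬ HypEmbedded H :=
  ⟨GG, inferInstance, data.S, data.H, data.T, SS_finite, SS_gen, T_finite, data.T_gen,
    data.almostMalnormal, nonempty_bdry, data.inducesHomeo, not_hyp⟩

end Pool.Agent.Results.MP_1d7d98_al.MalnormalNotHypEmbedded
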